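import Pool.Agent.H.MP_09bf15_lc.G

namespace Pool.Agent.Results.MP_09bf15_lc.Complete

open Pool.Agent.Lib.CX Pool.Agent.Lib.ER Pool.Agent.H.MP_09bf15_lc

open Classical in
/-- the slope of the line through two different points; `none` is the slope of vertical lines -/
noncomputable def slope (p q : ℝ × ℝ) : Option ℝ := if p.1 = q.1 then none else some ((q.2 - p.2) / (q.1 - p.1))

/-- the graph `a.1` has a straight-line drawing whose edges use at most `a.2` slopes -/
def SlopeNumber (a : Gr × ℕ) : Prop :=
  ∃ p : Fin a.1.n → ℝ × ℝ, Function.Injective p ∧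
    (∀ u v w, a.1.G.Adj u v → p w ∉ openSegment ℝ (p u) (p v)) ∧
    {σ | ∃ u v, a.1.G.Adj u v ∧ slope (p u) (p v) = σ}.encard ≤ a.2

theorem result : Red SlopeNumber ETR ∧ ∀ (α : Type) [Enc α] (A : α → Prop), Red A ETR → Red A SlopeNumber := by
  have s : ∀ p q, slope p q = sl (q - p) := fun p q => by
    simp only [slope, sl, Prod.fst_sub, Prod.snd_sub, sub_eq_zero, eq_comm]
  have e : SlopeNumber = SN := funext fun a => propext (exists_congr fun p => and_congr_right fun _ =>
    and_congr_right fun _ => by
      simp only [s]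
      constructor
      · intro h
        have f := Set.finite_of_encard_le_coe h
        refine ⟨f.toFinset, ?_, fun u v r => f.mem_toFinset.2 ⟨u, v, r, rfl⟩⟩
        rw [f.encard_eq_coe_toFinset_card] at h
        exact_mod_cast h
      · rintro ⟨S, h1, h2⟩
        refine (Set.encard_le_encard (t := S) ?_).trans ?_
        · rintro _ ⟨u, v, r, rfl⟩; exact h2 u v r
        · rw [Set.encard_coe_eq_coe_finsetCard]; exact_mod_cast h1)
  rw [e]
  obtain ⟨g, hg, h⟩ := hard
  exact ⟨memb, fun α _ A ⟨f, hf, h'⟩ => ⟨fun a => g (f a), hg.comp hf, fun a => (h' a).trans (h _)⟩⟩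

end Pool.Agent.Results.MP_09bf15_lc.Complete
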